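import Pool.Agent.Y223.G.Stm9
import Pool.Agent.Y429.G.RPrin

/-!
# The second grading and regularity outside the vertex (part H-R2CH of project G of helper223)
-/

set_option autoImplicit false

namespace Pool.Agent.Y48.H.R2C

open IsLocalRing Pool.Agent.W418.LU2 Pool.Agent.Y223.G Pool.Agent.Y223.G.RPrin

theorem ft_of_away {A B : Type} [CommRing A] [CommRing B] [Algebra A B] (x : A)
    [IsLocalization.Away x B] : Algebra.FiniteType A B := by
  have := IsLocalization.Away.finitePresentation (S := B) x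
  infer_instance

section iso

variable {k K K₂ : Type} [CommRing k] [Field K] [Field K₂] [Algebra k K] [Algebra k K₂]
  (ε : LP K →ₐ[k] K₂) (R : Subalgebra k (LP K)) (π : K)

/-- The map of the Laurent polynomials. -/
noncomputable def ph : LP K →ₐ[k] LP K₂ :=
  AddMonoidAlgebra.mapAlgHom (R := k) ℤ (ε.comp (zer k K))

lemma ph_hm (d : ℤ) (a : K) : ph ε (hm d a) = hm d (ε (hm 0 a)) :=
  AddMonoidAlgebra.mapAlgHom_single _ _ _

lemma ph_coeff (f : LP K) (d : ℤ) : (ph ε f).coeff d = ε (hm 0 (f.coeff d)) :=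
  AddMonoidAlgebra.coeff_mapAlgHom _ _ _

lemma ph_mem (hR : Gr R) {f : LP K} (hf : f ∈ R) : ph ε f ∈ R2 ε R π := by
  rw [eq_sum_hm f, map_sum]
  refine (R2 ε R π).sum_mem fun d _ => ?_
  rw [ph_hm]
  exact Algebra.subset_adjoin (Or.inl ⟨d, _, hR f hf d, rfl⟩)

/-- The unit. -/
noncomputable def vv : LP K₂ := hm 0 (ε (hm 1 π))

/-- Its inverse. -/
noncomputable def vi : LP K₂ := hm 0 (ε (hm (-1) π⁻¹))

lemma vv_mem : vv ε π ∈ R2 ε R π := Algebra.subset_adjoin (Or.inr (Or.inl rfl))

lemma vi_mem : vi ε π ∈ R2 ε R π := Algebra.subset_adjoin (Or.inr (Or.inr rfl))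

variable {π}

lemma vv_vi (hπ : π ≠ 0) : vv ε π * vi ε π = 1 := by
  unfold vv vi
  rw [hm_mul, ← map_mul, hm_mul, mul_inv_cancel₀ hπ, add_neg_cancel, hm_one, map_one, add_zero,
    hm_one]

lemma vv_pow (n : ℕ) : vv ε π ^ n = hm 0 (ε (hm n (π ^ n))) := by
  unfold vv
  rw [hm_pow, ← map_pow, hm_pow, mul_zero, mul_one]

/-- The homomorphism from the polynomial ring. -/
noncomputable def fm (hR : Gr R) : Polynomial R →+* R2 ε R π :=
  Polynomial.eval₂RingHom
    ((((ph ε).comp R.val).codRestrict (R2 ε R π) fun x => ph_mem ε R π hR x.2) :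
      R →ₐ[k] R2 ε R π).toRingHom ⟨vv ε π, vv_mem ε R π⟩

lemma fm_C (hR : Gr R) (x : R) : ((fm ε R (π := π) hR (Polynomial.C x) : R2 ε R π) : LP K₂) =
    ph ε x := by
  unfold fm
  rw [Polynomial.coe_eval₂RingHom, Polynomial.eval₂_C]
  rfl

lemma fm_X (hR : Gr R) : ((fm ε R (π := π) hR Polynomial.X : R2 ε R π) : LP K₂) = vv ε π := by
  unfold fm
  rw [Polynomial.coe_eval₂RingHom, Polynomial.eval₂_X]

lemma fm_coeff (hR : Gr R) (P : Polynomial R) (d : ℤ) :
    ((fm ε R (π := π) hR P : R2 ε R π) : LP K₂).coeff d =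
      ε (∑ n ∈ P.support, hm n (((P.coeff n : R) : LP K).coeff d * π ^ n)) := by
  have h1 : ((fm ε R (π := π) hR P : R2 ε R π) : LP K₂) =
      ∑ n ∈ P.support, ph ε (P.coeff n : R) * vv ε π ^ n := by
    unfold fm
    rw [Polynomial.coe_eval₂RingHom, Polynomial.eval₂_eq_sum, Polynomial.sum_def,
      AddSubmonoidClass.coe_finsetSum]
    rfl
  rw [h1, AddMonoidAlgebra.coeff_sum, Finsupp.finsetSum_apply, map_sum]
  refine Finset.sum_congr rfl fun n _ => ?_
  rw [vv_pow, mul_comm, coeff_hm_mul, sub_zero, ph_coeff, ← map_mul, hm_mul, add_zero, mul_comm (π ^ n)]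

lemma fm_inj (hε : Function.Injective ε) (hπ : π ≠ 0) (hR : Gr R) :
    Function.Injective (fm ε R (π := π) hR) := by
  rw [injective_iff_map_eq_zero]
  intro P hP
  have key : ∀ (n : ℕ) (d : ℤ), ((P.coeff n : R) : LP K).coeff d = 0 := by
    intro n d
    by_cases hn : n ∈ P.support
    · have h1 := fm_coeff ε R (π := π) hR P d
      rw [hP] at h1
      have h2 : (∑ n ∈ P.support, hm (n : ℤ) (((P.coeff n : R) : LP K).coeff d * π ^ n)) = 0 := by
        apply hε
        rw [← h1, map_zero]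
        rfl
      have h3 : (∑ n ∈ P.support,
          hm (n : ℤ) (((P.coeff n : R) : LP K).coeff d * π ^ n)).coeff (n : ℤ) = 0 := by
        rw [h2]
        rfl
      rw [AddMonoidAlgebra.coeff_sum, Finsupp.finsetSum_apply, Finset.sum_eq_single n] at h3
      · rw [coeff_hm_same] at h3
        exact (mul_eq_zero.1 h3).resolve_right (pow_ne_zero _ hπ)
      · intro b _ hb
        rw [coeff_hm, if_neg]
        exact_mod_cast hb
      · intro h
        exact absurd hn h
    · rw [Polynomial.notMem_support_iff.1 hn]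
      rfl
  refine Polynomial.ext fun n => Subtype.ext ?_
  rw [eq_sum_hm ((P.coeff n : R) : LP K)]
  refine Finset.sum_eq_zero fun d _ => ?_
  rw [key n d, hm_zero]

/-- The elements which become polynomials after multiplication by a power of the unit. -/
noncomputable def pol (hR : Gr R) : Subalgebra k (LP K₂) where
  carrier := {f | ∃ (n : ℕ) (P : Polynomial R),
    f * vv ε π ^ n = ((fm ε R (π := π) hR P : R2 ε R π) : LP K₂)}
  mul_mem' := by
    rintro f g ⟨n, P, hP⟩ ⟨m, P', hP'⟩
    refine ⟨n + m, P * P', ?_⟩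
    rw [map_mul]
    change _ = ((fm ε R (π := π) hR P : R2 ε R π) : LP K₂) *
      ((fm ε R (π := π) hR P' : R2 ε R π) : LP K₂)
    rw [← hP, ← hP']
    ring
  add_mem' := by
    rintro f g ⟨n, P, hP⟩ ⟨m, P', hP'⟩
    refine ⟨n + m, P * Polynomial.X ^ m + P' * Polynomial.X ^ n, ?_⟩
    rw [map_add, map_mul, map_mul, map_pow, map_pow]
    change _ = ((fm ε R (π := π) hR P : R2 ε R π) : LP K₂) *
      ((fm ε R (π := π) hR Polynomial.X : R2 ε R π) : LP K₂) ^ m +
      ((fm ε R (π := π) hR P' : R2 ε R π) : LP K₂) *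
      ((fm ε R (π := π) hR Polynomial.X : R2 ε R π) : LP K₂) ^ n
    rw [← hP, ← hP', fm_X]
    ring
  algebraMap_mem' r := ⟨0, Polynomial.C (algebraMap k R r), by
    rw [fm_C, pow_zero, mul_one]
    exact ((ph ε).commutes r).symm⟩

lemma le_pol (hπ : π ≠ 0) (hR : Gr R) : R2 ε R π ≤ pol ε R (π := π) hR := by
  unfold R2
  rw [Algebra.adjoin_le_iff]
  rintro f (⟨d, a, ha, rfl⟩ | rfl | rfl)
  · exact ⟨0, Polynomial.C ⟨_, ha⟩, by rw [fm_C, pow_zero, mul_one, ph_hm]⟩
  · exact ⟨0, Polynomial.X, by rw [fm_X, pow_zero, mul_one]; rfl⟩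
  · refine ⟨1, 1, ?_⟩
    rw [map_one, pow_one, mul_comm]
    exact vv_vi ε hπ

theorem isLoc (hε : Function.Injective ε) (hπ : π ≠ 0) (hR : Gr R) :
    @IsLocalization.Away (Polynomial R) _ Polynomial.X (R2 ε R π) _
      (fm ε R (π := π) hR).toAlgebra := by
  let _ := (fm ε R (π := π) hR).toAlgebra
  refine IsLocalization.Away.mk Polynomial.X ?_ ?_ ?_
  · refine IsUnit.of_mul_eq_one ⟨vi ε π, vi_mem ε R π⟩ ?_
    apply Subtype.ext
    change ((fm ε R (π := π) hR Polynomial.X : R2 ε R π) : LP K₂) * vi ε π = 1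
    rw [fm_X, vv_vi ε hπ]
  · rintro ⟨f, hf⟩
    obtain ⟨n, P, h⟩ := le_pol ε R hπ hR hf
    refine ⟨n, P, ?_⟩
    apply Subtype.ext
    change f * ((fm ε R (π := π) hR Polynomial.X : R2 ε R π) : LP K₂) ^ n = _
    rw [fm_X, h]
    rfl
  · intro a b hab
    refine ⟨0, ?_⟩
    rw [fm_inj ε R hε hπ hR hab]

theorem regular_R2 (hε : Function.Injective ε) (hπ : π ≠ 0) (hR : Gr R) (h : IsRegularRing R) :
    IsRegularRing (R2 ε R π) := by
  let _ := (fm ε R (π := π) hR).toAlgebra
  have h1 : IsLocalization.Away (Polynomial.X : Polynomial R) (R2 ε R π) := isLoc ε R hε hπ hR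
  exact regular_of_isLocalization (Submonoid.powers (Polynomial.X : Polynomial R))

theorem ft_R2 (hε : Function.Injective ε) (hπ : π ≠ 0) (hR : Gr R) (h : Algebra.FiniteType k R) :
    Algebra.FiniteType k (R2 ε R π) := by
  let _ := (fm ε R (π := π) hR).toAlgebra
  have h1 : IsLocalization.Away (Polynomial.X : Polynomial R) (R2 ε R π) := isLoc ε R hε hπ hR
  have _ : IsScalarTower k (Polynomial R) (R2 ε R π) := IsScalarTower.of_algebraMap_eq fun r => by
    apply Subtype.ext
    change _ = ((fm ε R (π := π) hR (Polynomial.C (algebraMap k R r)) : R2 ε R π) : LP K₂)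
    rw [fm_C]
    exact ((ph ε).commutes r).symm
  have h2 : Algebra.FiniteType (Polynomial R) (R2 ε R π) :=
    ft_of_away (A := Polynomial R) (B := R2 ε R π) Polynomial.X
  have h3 : Algebra.FiniteType k (Polynomial R) := Algebra.FiniteType.trans h inferInstance
  exact Algebra.FiniteType.trans h3 h2

theorem loc_R2 (hR : Gr R) {e : ℤ} {a : K} (ha : a ≠ 0) (h : hm e a ∈ R)
    (hx : hm e (ε (hm 0 a)) ∈ R2 ε R π) :
    loc (R2 ε R π) (hm e (ε (hm 0 a))) hx = R2 ε (loc R (hm e a) h) π := by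
  apply le_antisymm
  · rintro f ⟨n, hn⟩
    have h1 : R2 ε R π ≤ R2 ε (loc R (hm e a) h) π := by
      unfold R2
      apply Algebra.adjoin_mono
      rintro g (⟨d, b, hb, rfl⟩ | hg)
      · exact Or.inl ⟨d, b, le_loc R _ h hb, rfl⟩
      · exact Or.inr hg
    have h2 : hm (-e) a⁻¹ ∈ loc R (hm e a) h := by
      refine inv_mem_loc R _ _ h ?_
      rw [hm_mul, add_neg_cancel, mul_inv_cancel₀ ha, hm_one]
    have h3 := ph_mem ε (loc R (hm e a) h) π (gr_loc hR ha h) h2
    have h4 := (R2 ε (loc R (hm e a) h) π).mul_mem ((R2 ε (loc R (hm e a) h) π).pow_mem h3 n)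
      (h1 hn)
    have h5 : ph ε (hm (-e) a⁻¹) ^ n * (hm e (ε (hm 0 a)) ^ n * f) = f := by
      rw [← ph_hm, ← mul_assoc, ← mul_pow, ← map_mul, hm_mul, neg_add_cancel, inv_mul_cancel₀ ha,
        hm_one, map_one, one_pow, one_mul]
    rwa [h5] at h4
  · unfold R2
    rw [Algebra.adjoin_le_iff]
    rintro g (⟨d, b, ⟨n, hn⟩, rfl⟩ | hg)
    · refine ⟨n, ?_⟩
      have h1 := ph_mem ε R π hR hn
      rw [map_mul, map_pow, ph_hm, ph_hm] at h1
      exact h1
    · exact le_loc _ _ hx (Algebra.subset_adjoin (Or.inr hg))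

end iso

section glue

variable {k K : Type} [CommRing k] [Field K] [Algebra k K]

theorem of_isLoc {A B B' : Type} [CommRing A] [CommRing B] [CommRing B'] [Algebra A B]
    [Algebra A B'] (M : Submonoid A) [IsLocalization M B] [IsLocalization M B']
    [IsRegularLocalRing B] : IsRegularLocalRing B' :=
  IsRegularLocalRing.of_ringEquiv (IsLocalization.algEquiv M B B').toRingEquiv

theorem at_prime {C : Subalgebra k (LP K)} (Q : Ideal C) [Q.IsPrime] {x : LP K} (hx : x ∈ C)
    (hu : IsUnit x) (hxQ : (⟨x, hx⟩ : C) ∉ Q) (h : IsRegularRing (loc C x hx)) :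
    IsRegularLocalRing (Localization.AtPrime Q) := by
  let _ := locAlg C hx
  have h1 : IsLocalization.Away (⟨x, hx⟩ : C) (loc C x hx) := isLocalization_loc C hx hu
  have hQ : (Ideal.map (algebraMap C (loc C x hx)) Q).IsPrime :=
    IsLocalization.isPrime_of_isPrime_disjoint (.powers (⟨x, hx⟩ : C)) _ _ ‹_›
      ((Ideal.disjoint_powers_iff_notMem_of_isPrime _).mpr hxQ)
  have h2 : (Ideal.map (algebraMap C (loc C x hx)) Q).comap (algebraMap C (loc C x hx)) = Q :=
    IsLocalization.under_map_of_isPrime_disjoint (.powers (⟨x, hx⟩ : C)) _ ‹_›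
      ((Ideal.disjoint_powers_iff_notMem_of_isPrime _).mpr hxQ)
  have h3 := IsLocalization.isLocalization_isLocalization_atPrime_isLocalization
    (.powers (⟨x, hx⟩ : C))
    (Localization.AtPrime (Ideal.map (algebraMap C (loc C x hx)) Q))
    (Ideal.map (algebraMap C (loc C x hx)) Q)
  simp only [h2] at h3
  exact of_isLoc (B := Localization.AtPrime (Ideal.map (algebraMap C (loc C x hx)) Q))
    (B' := Localization.AtPrime Q) Q.primeCompl

theorem regular_glue {C : Subalgebra k (LP K)} (hN : IsNoetherianRing C) {y : LP K}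
    (hy : y ∈ C) (hyu : IsUnit y)
    (h : ∀ Q : Ideal C, Q.IsPrime → (⟨y, hy⟩ : C) ∉ Q → ∃ (x : LP K) (hx : x ∈ C), IsUnit x ∧
      (⟨x, hx⟩ : C) ∉ Q ∧ IsRegularRing (loc C x hx)) : IsRegularRing (loc C y hy) := by
  let _ := locAlg C hy
  have h1 : IsLocalization.Away (⟨y, hy⟩ : C) (loc C y hy) := isLocalization_loc C hy hyu
  have h0 : IsNoetherianRing (loc C y hy) :=
    IsLocalization.isNoetherianRing (Submonoid.powers (⟨y, hy⟩ : C)) _ hN
  rw [isRegularRing_iff]
  intro P hP
  let q : Ideal C := P.comap (algebraMap C (loc C y hy))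
  have hq : q.IsPrime := Ideal.comap_isPrime _ _
  have hyq : (⟨y, hy⟩ : C) ∉ q := by
    intro h2
    exact hP.ne_top (Ideal.eq_top_of_isUnit_mem _ h2 (IsLocalization.Away.algebraMap_isUnit _))
  obtain ⟨x, hx, hxu, hxq, hreg⟩ := h q hq hyq
  have hq1 : IsRegularLocalRing (Localization.AtPrime q) := at_prime q hx hxu hxq hreg
  have h2 : IsLocalization.AtPrime (Localization.AtPrime P) q :=
    IsLocalization.isLocalization_isLocalization_atPrime_isLocalization
      (Submonoid.powers (⟨y, hy⟩ : C)) (Localization.AtPrime P) P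
  exact of_isLoc (B := Localization.AtPrime q) (B' := Localization.AtPrime P) q.primeCompl

end glue

/-- The second grading and regularity outside the vertex. -/
theorem t_R2CH : S_R2M → S_R2CH := by
  intro hM k K K₂ _ _ _ _ _ _ ε hε R hC π hπ
  obtain ⟨hBG, hmon⟩ := hM k K K₂ ε hε R hC.gr π hπ
  have hft : Algebra.FiniteType k (R2 ε R π) := ft_R2 ε R hε.inj hπ hC.gr hC.ft
  have hN : IsNoetherianRing (R2 ε R π) := Algebra.FiniteType.isNoetherianRing k _
  refine ⟨hft, ?_, ?_, ?_, ?_, ?_⟩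
  · -- graded
    apply gr_adjoin
    rintro f (⟨d, a, -, rfl⟩ | rfl | rfl)
    · exact ⟨_, _, rfl⟩
    · exact ⟨_, _, rfl⟩
    · exact ⟨_, _, rfl⟩
  · have h := ph_mem ε R π hC.gr hC.ss
    rw [ph_hm, hm_one, map_one] at h
    exact h
  · -- coefficients
    intro d x hx
    have h1 := hBG _ hx
    have h2 : ∀ f ∈ Submodule.span k {g | g ∈ R2 ε R π ∧ ∃ (d b : ℤ) (a : K),
        g = hm d (ε (hm b a))}, hm 0 (f.coeff d) ∈ R2 ε R π := by
      intro f hf
      induction hf using Submodule.span_induction with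
      | mem g hg =>
        obtain ⟨hg, d', b, a, rfl⟩ := hg
        rw [coeff_hm]
        split_ifs with h
        · rw [hmon] at hg ⊢
          exact hC.cf _ _ hg
        · rw [hm_zero]; exact Subalgebra.zero_mem _
      | zero =>
        rw [AddMonoidAlgebra.coeff_zero, Finsupp.zero_apply, hm_zero]
        exact Subalgebra.zero_mem _
      | add x y _ _ hx hy =>
        rw [AddMonoidAlgebra.coeff_add, Finsupp.add_apply, hm_add]
        exact Subalgebra.add_mem _ hx hy
      | smul r x _ hx =>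
        rw [AddMonoidAlgebra.coeff_smul, Finsupp.smul_apply, ← smul_hm]
        exact Subalgebra.smul_mem _ hx r
    have h3 := h2 _ h1
    rw [coeff_hm_same] at h3
    exact h3
  · -- an element of positive degree
    obtain ⟨d, a, hd, ha, h⟩ := hC.pos
    refine ⟨d, ε (hm 0 a), hd, ?_, ?_⟩
    · intro h0
      exact hm_ne_zero ha (hε.inj (h0.trans (map_zero ε).symm))
    · have := ph_mem ε R π hC.gr h
      rwa [ph_hm] at this
  · -- regularity
    intro e η he he0 hη
    refine regular_glue hN he (isUnit_hm hη) fun Q hQ hnQ => ?_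
    by_contra hcon
    apply hnQ
    have key : ∀ a : K, hm e a ∈ R → InQ _ Q (hm e (ε (hm 0 a))) := by
      intro a ha
      by_cases ha0 : a = 0
      · rw [ha0, hm_zero, map_zero, hm_zero]; exact inQ_zero
      have hx : hm e (ε (hm 0 a)) ∈ R2 ε R π := by
        have := ph_mem ε R π hC.gr ha
        rwa [ph_hm] at this
      have hne : ε (hm 0 a) ≠ 0 := by
        intro h0
        exact hm_ne_zero ha0 (hε.inj (h0.trans (map_zero ε).symm))
      by_contra hn
      refine hcon ⟨_, hx, isUnit_hm hne, fun h => hn ⟨hx, h⟩, ?_⟩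
      rw [loc_R2 ε R hC.gr ha0 ha hx]
      exact regular_R2 ε _ hε.inj hπ (gr_loc hC.gr ha0 ha) (hC.rg e a ha he0 ha0)
    have h1 := hBG _ he
    have h2 : ∀ f ∈ Submodule.span k {g | g ∈ R2 ε R π ∧ ∃ (d b : ℤ) (a : K),
        g = hm d (ε (hm b a))}, InQ _ Q (hm e (f.coeff e)) := by
      intro f hf
      induction hf using Submodule.span_induction with
      | mem g hg =>
        obtain ⟨hg, d', b, a, rfl⟩ := hg
        rw [coeff_hm]
        split_ifs with h
        · subst h
          have h3 := (hmon _ _ _).1 hg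
          have h4 := key _ h3
          have h5 : hm 0 (ε (hm b (π ^ b))) ∈ R2 ε R π := by
            rw [hmon, ← zpow_add₀ hπ, add_neg_cancel, zpow_zero, hm_one]
            exact R.one_mem
          have h6 := inQ_mul h5 h4
          rw [hm_mul, ← map_mul, hm_mul] at h6
          have e1 : π ^ b * (a * π ^ (-b)) = a := by
            rw [mul_left_comm, ← zpow_add₀ hπ, add_neg_cancel, zpow_zero, mul_one]
          rwa [e1, zero_add, add_zero] at h6
        · rw [hm_zero]; exact inQ_zero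
      | zero =>
        rw [AddMonoidAlgebra.coeff_zero, Finsupp.zero_apply, hm_zero]
        exact inQ_zero
      | add x y _ _ hx hy =>
        rw [AddMonoidAlgebra.coeff_add, Finsupp.add_apply, hm_add]
        exact inQ_add hx hy
      | smul r x _ hx =>
        rw [AddMonoidAlgebra.coeff_smul, Finsupp.smul_apply, ← smul_hm]
        exact inQ_smul r hx
    have h3 := h2 _ h1
    rw [coeff_hm_same] at h3
    exact h3.2

end Pool.Agent.Y48.H.R2C
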